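import Pool.Agent.Helper8.SPV.Stmts
import Pool.Agent.Helper8.SPV.PLib

/-! # Functions of bounded degree -/

set_option autoImplicit false

namespace Pool.Agent.Helper8.SPV

theorem st_B1 (h1 : ST_PL1) (h2 : ST_PL2) (hL : ST_LFIN) (hC : ST_CODIM) : ST_B1 := by
  classical
  intro k K _ _ _ _ _ hFF n
  have h : ∀ p : Pl k K, p.Laws := fun p => h1 k K hFF p
  obtain ⟨x, hx, -⟩ := id hFF
  have hx0 : x ≠ 0 := by
    rintro rfl
    exact hx (isAlgebraic_zero)
  have hfin : ∀ f : K, f ≠ 0 → {p : Pl k K | p.ord f ≠ 0}.Finite := h2 k K hFF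
  set N : ℕ := n.toNat with hN
  have hGf : {p : Pl k K | (N : ℤ) * max 0 (-p.ord x) ≠ 0}.Finite := by
    refine (hfin x hx0).subset fun p hp => ?_
    intro h0
    apply hp
    rw [h0]; simp
  obtain ⟨V, hV, hVmem⟩ := hL k K hFF (fun p => (N : ℤ) * max 0 (-p.ord x)) hGf
  refine ⟨V, hV, fun f hf => ?_⟩
  have hpow : ∀ i : Fin (N + 1), x ^ (i : ℕ) ∈ V := by
    intro i
    rw [hVmem]
    intro p
    refine Or.inr ?_
    rw [(h p).ord_pow]
    have hi : (i : ℕ) ≤ N := Nat.lt_succ_iff.1 i.2
    have hi' : ((i : ℕ) : ℤ) ≤ N := by exact_mod_cast hi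
    have h3 : -(max 0 (-p.ord x)) ≤ p.ord x := by
      have := le_max_right 0 (-p.ord x); linarith
    have h4 : 0 ≤ max 0 (-p.ord x) := le_max_left _ _
    nlinarith [Int.natCast_nonneg (i : ℕ)]
  have hone : (1 : K) ∈ V := by
    have := hpow 0
    simpa using this
  by_cases hf0 : f = 0
  · exact ⟨0, V.zero_mem, 1, hone, one_ne_zero, by rw [hf0]; simp⟩
  have hli : LinearIndependent k fun i : Fin (N + 1) => (⟨x ^ (i : ℕ), hpow i⟩ : V) := by
    have h6 : LinearIndependent k fun i : Fin (N + 1) => x ^ (i : ℕ) := by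
      rw [Fintype.linearIndependent_iff]
      intro g hg i
      have hinj := transcendental_iff_injective.1 hx
      have e : Polynomial.aeval x (∑ i : Fin (N + 1), Polynomial.monomial (i : ℕ) (g i)) =
          (0 : K) := by
        rw [map_sum, ← hg]
        refine Finset.sum_congr rfl fun j _ => ?_
        rw [Polynomial.aeval_monomial, Algebra.smul_def]
      have e2 := hinj (e.trans (map_zero _).symm)
      have e3 := congrArg (fun P : Polynomial k => P.coeff (i : ℕ)) e2
      simp only [Polynomial.finsetSum_coeff, Polynomial.coeff_monomial,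
        Polynomial.coeff_zero] at e3
      rw [Finset.sum_eq_single i] at e3
      · simpa using e3
      · intro j _ hj
        rw [if_neg fun h0 => hj (Fin.ext h0)]
      · intro h0
        exact absurd (Finset.mem_univ i) h0
    exact LinearIndependent.of_comp V.subtype h6
  have hdim : N + 1 ≤ Module.finrank k V := by
    have := hli.fintype_card_le_finrank
    simpa using this
  set S : Finset (Pl k K) := (hfin f hf0).toFinset with hS
  have hpoles : ∑ p ∈ S, max 0 (-p.ord f) ≤ N := by
    have h7 : Pl.poles (k := k) f = ∑ p ∈ S, max 0 (-p.ord f) := by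
      unfold Pl.poles
      apply finsum_eq_sum_of_support_subset
      intro p hp
      rw [hS, Set.Finite.coe_toFinset]
      intro h0
      apply hp
      simp only [h0]
      simp
    rw [← h7]
    omega
  let V' : Submodule k K :=
    { carrier := {F | F ∈ V ∧ ∀ p ∈ S,
        p.Ge (-((N : ℤ) * max 0 (-p.ord x)) + max 0 (-p.ord f)) (LinearMap.id (R := k) F)}
      zero_mem' := ⟨V.zero_mem, fun p _ => (h p).ge_zero _⟩
      add_mem' := fun ha hb => ⟨V.add_mem ha.1 hb.1, fun p hp =>
        (h p).ge_add (ha.2 p hp) (hb.2 p hp)⟩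
      smul_mem' := fun c _ ha => ⟨V.smul_mem c ha.1, fun p hp => (h p).ge_smul c (ha.2 p hp)⟩ }
  have hcod := hC k K hFF V LinearMap.id S
    (fun p => -((N : ℤ) * max 0 (-p.ord x)) + max 0 (-p.ord f)) (fun p => max 0 (-p.ord f))
    (fun p _ => le_max_left _ _)
    (fun F hF p _ => by
      have := (hVmem F).1 hF p
      refine (h p).ge_mono this ?_
      linarith) V' (fun F => Iff.rfl)
  have hpos : 0 < Module.finrank k V' := by
    have : ((N : ℤ) + 1) ≤ Module.finrank k V := by exact_mod_cast hdim
    have h8 : (0 : ℤ) < Module.finrank k V' := by linarith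
    exact_mod_cast h8
  have hnt : Nontrivial V' := by
    by_contra hnt
    rw [not_nontrivial_iff_subsingleton] at hnt
    rw [Module.finrank_zero_of_subsingleton] at hpos
    exact lt_irrefl _ hpos
  obtain ⟨d, hd⟩ := exists_ne (0 : V')
  have hd0 : (d : K) ≠ 0 := fun h0 => hd (Subtype.ext h0)
  refine ⟨f * d, ?_, d, d.2.1, hd0, by rw [mul_div_cancel_right₀ _ hd0]⟩
  rw [hVmem]
  intro p
  have hfp : p.Ge (-(max 0 (-p.ord f))) f := by
    refine Or.inr ?_
    have := le_max_right 0 (-p.ord f)
    linarith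
  by_cases hp : p ∈ S
  · have h9 := d.2.2 p hp
    have h10 := (h p).ge_mul hfp h9
    refine (h p).ge_mono h10 ?_
    linarith
  · have h11 : p.ord f = 0 := by
      by_contra h12
      exact hp (by rw [hS, Set.Finite.mem_toFinset]; exact h12)
    have h9 := (hVmem _).1 d.2.1 p
    have h10 := (h p).ge_mul (show p.Ge 0 f from Or.inr h11.ge) h9
    refine (h p).ge_mono h10 ?_
    linarith

end Pool.Agent.Helper8.SPV
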