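import Pool.Agent.Helper8.SPV.Stmts

/-! # Extension of derivations in characteristic zero -/

set_option autoImplicit false

namespace Pool.Agent.Helper8.SPV

open TrivSqZeroExt

/-- lifting of a homomorphism to the dual numbers -/
theorem DEREXT_lift (A K : Type) [CommRing A] [Field K] [Algebra A K] [Algebra.FormallySmooth A K]
    (ψ : A →+* TrivSqZeroExt K K) (hψ : ∀ a, (ψ a).fst = algebraMap A K a) :
    ∃ D : Derivation ℤ K K, ∀ a, D (algebraMap A K a) = (ψ a).snd := by
  let _ : Algebra A (TrivSqZeroExt K K) := ψ.toAlgebra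
  let g : TrivSqZeroExt K K →ₐ[A] K :=
    { (TrivSqZeroExt.fstHom K K K : TrivSqZeroExt K K →+* K) with
      commutes' := fun a => hψ a }
  have hg : Function.Surjective g := fun x => ⟨inl x, rfl⟩
  have hnil : IsNilpotent (RingHom.ker (g : TrivSqZeroExt K K →+* K)) := by
    refine ⟨2, ?_⟩
    have h2 : RingHom.ker (g : TrivSqZeroExt K K →+* K) ^ 2 =
        RingHom.ker (g : TrivSqZeroExt K K →+* K) * RingHom.ker (g : TrivSqZeroExt K K →+* K) := by
      rw [show (2 : ℕ) = 1 + 1 from rfl, Submodule.pow_succ, Submodule.pow_one]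
    rw [h2, Ideal.zero_eq_bot, eq_bot_iff, Ideal.mul_le]
    intro r hr s hs
    have hr' : r.fst = 0 := hr
    have hs' : s.fst = 0 := hs
    rw [Ideal.mem_bot]
    ext
    · rw [TrivSqZeroExt.fst_mul, hr', zero_mul]; rfl
    · rw [TrivSqZeroExt.snd_mul, hr', hs']; simp
  let l : K →ₐ[A] TrivSqZeroExt K K :=
    Algebra.FormallySmooth.liftOfSurjective (AlgHom.id A K) g hg hnil
  have hl : ∀ x : K, (l x).fst = x := fun x =>
    Algebra.FormallySmooth.liftOfSurjective_apply (AlgHom.id A K) g hg hnil x
  refine ⟨Derivation.mk' ((TrivSqZeroExt.sndHom K K : TrivSqZeroExt K K →+ K).comp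
    (l : K →+ TrivSqZeroExt K K)).toIntLinearMap ?_, ?_⟩
  · intro a b
    change (l (a * b)).snd = a • (l b).snd + b • (l a).snd
    rw [map_mul, TrivSqZeroExt.snd_mul, hl, hl]
    simp [mul_comm]
  · intro a
    change (l (algebraMap A K a)).snd = (ψ a).snd
    rw [l.commutes]
    rfl

/-- in characteristic zero, all field extensions are formally smooth -/
theorem DEREXT_smooth (F K : Type) [Field F] [Field K] [CharZero F] [Algebra F K] :
    Algebra.FormallySmooth F K := by
  obtain ⟨s, hs⟩ := exists_isTranscendenceBasis F K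
  have : Algebra.IsAlgebraic (IntermediateField.adjoin F (Set.range ((↑) : s → K))) K := by
    exact hs.isAlgebraic_field
  exact Algebra.FormallySmooth.of_algebraicIndependent_of_isSeparable hs.1

open scoped IntermediateField.algebraAdjoinAdjoin in
theorem DEREXT_smooth' (F K : Type) [Field F] [Field K] [CharZero F] [Algebra F K]
    (v : Unit → K) :
    Algebra.FormallySmooth (Algebra.adjoin F (Set.range v)) K := by
  have h1 : Algebra.FormallySmooth (Algebra.adjoin F (Set.range v))
      (IntermediateField.adjoin F (Set.range v)) :=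
    .of_isLocalization (nonZeroDivisors _)
  have h2 : CharZero (IntermediateField.adjoin F (Set.range v)) :=
    charZero_of_injective_algebraMap
      (algebraMap F (IntermediateField.adjoin F (Set.range v))).injective
  have h3 := DEREXT_smooth (IntermediateField.adjoin F (Set.range v)) K
  have h4 : IsScalarTower (Algebra.adjoin F (Set.range v))
      (IntermediateField.adjoin F (Set.range v)) K := IsScalarTower.of_algebraMap_eq fun x => rfl
  exact .comp _ (IntermediateField.adjoin F (Set.range v)) _

/-- the homomorphism to the dual numbers given by a derivation -/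
noncomputable def DEREXT_hom (F K : Type) [Field F] [Field K] [Algebra F K]
    (D : Derivation ℤ F K) : F →+* TrivSqZeroExt K K where
  toFun a := inl (algebraMap F K a) + inr (D a)
  map_one' := by simp
  map_zero' := by simp
  map_add' a b := by
    ext
    · simp
    · simp
  map_mul' a b := by
    ext
    · simp
    · simp only [TrivSqZeroExt.snd_add, TrivSqZeroExt.snd_inl, TrivSqZeroExt.snd_inr,
        TrivSqZeroExt.snd_mul, TrivSqZeroExt.fst_add, TrivSqZeroExt.fst_inl,
        TrivSqZeroExt.fst_inr, zero_add, add_zero, Derivation.leibniz, smul_eq_mul,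
        op_smul_eq_smul, Algebra.smul_def, Algebra.algebraMap_self, RingHom.id_apply]

theorem st_DEREXT : ST_DEREXT := by
  intro F K _ _ _ _ D
  constructor
  · have := DEREXT_smooth F K
    obtain ⟨D', hD'⟩ := DEREXT_lift F K (DEREXT_hom F K D) (fun a => by simp [DEREXT_hom])
    exact ⟨D', fun a => by rw [hD']; simp [DEREXT_hom]⟩
  · intro T hT u
    let v : Unit → K := fun _ => T
    have hv : AlgebraicIndependent F v := by
      rw [algebraicIndependent_unique_type_iff]
      exact hT
    have := DEREXT_smooth' F K v
    let e := hv.aevalEquiv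
    let ψ : Algebra.adjoin F (Set.range v) →+* TrivSqZeroExt K K :=
      (MvPolynomial.eval₂Hom (DEREXT_hom F K D) (fun _ => inl T + inr u)).comp
        (e.symm : Algebra.adjoin F (Set.range v) →+* MvPolynomial Unit F)
    have h0 : ∀ q : MvPolynomial Unit F, ψ (e q) =
        MvPolynomial.eval₂Hom (DEREXT_hom F K D) (fun _ => inl T + inr u) q := by
      intro q
      change MvPolynomial.eval₂Hom (DEREXT_hom F K D) (fun _ => inl T + inr u)
        (e.symm (e q)) = _
      rw [e.symm_apply_apply]
    have hψ : ∀ a, (ψ a).fst = algebraMap (Algebra.adjoin F (Set.range v)) K a := by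
      intro a
      obtain ⟨q, rfl⟩ := e.surjective a
      rw [h0]
      have h1 : ((TrivSqZeroExt.fstHom K K K : TrivSqZeroExt K K →+* K).comp
          (MvPolynomial.eval₂Hom (DEREXT_hom F K D) (fun _ => inl T + inr u))) =
          (MvPolynomial.aeval v : MvPolynomial Unit F →ₐ[F] K).toRingHom := by
        ext
        · simp [DEREXT_hom]
        · simp [v]
      have h2 := congrArg (fun f => f q) h1
      change (MvPolynomial.eval₂Hom (DEREXT_hom F K D) (fun _ => inl T + inr u) q).fst =
        MvPolynomial.aeval v q at h2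
      rw [h2]
      exact (hv.algebraMap_aevalEquiv q).symm
    obtain ⟨D', hD'⟩ := DEREXT_lift _ K ψ hψ
    refine ⟨D', fun a => ?_, ?_⟩
    · have h3 := hD' (e (MvPolynomial.C a))
      rw [h0] at h3
      have h4 : algebraMap (Algebra.adjoin F (Set.range v)) K (e (MvPolynomial.C a)) =
          algebraMap F K a := by
        rw [hv.algebraMap_aevalEquiv]; simp
      rw [h4] at h3
      rw [h3]
      simp [DEREXT_hom]
    · have h3 := hD' (e (MvPolynomial.X ()))
      rw [h0] at h3
      have h4 : algebraMap (Algebra.adjoin F (Set.range v)) K (e (MvPolynomial.X ())) = T := by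
        rw [hv.algebraMap_aevalEquiv]; simp [v]
      rw [h4] at h3
      rw [h3]
      simp

end Pool.Agent.Helper8.SPV
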