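import Pool.Agent.Helper8.SPV.Stmts
import Pool.Agent.Helper8.SPV.PLib

/-! # Riemann-Roch spaces are finite-dimensional -/

set_option autoImplicit false

namespace Pool.Agent.Helper8.SPV

section

variable {k K : Type} [Field k] [Field K] [Algebra k K]

/-- the Riemann-Roch space -/
def LFIN_L (h : ∀ p : Pl k K, p.Laws) (G : Pl k K → ℤ) : Submodule k K where
  carrier := {f | ∀ p : Pl k K, p.Ge (-G p) f}
  zero_mem' p := (h p).ge_zero _
  add_mem' hf hg p := (h p).ge_add (hf p) (hg p)
  smul_mem' c _ hf p := (h p).ge_smul c (hf p)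

theorem LFIN_mem (h : ∀ p : Pl k K, p.Laws) (G : Pl k K → ℤ) (f : K) :
    f ∈ LFIN_L h G ↔ ∀ p : Pl k K, p.Ge (-G p) f := Iff.rfl

open Classical in
/-- allowing one more pole -/
theorem LFIN_step (h : ∀ p : Pl k K, p.Laws) (G : Pl k K → ℤ) (q : Pl k K)
    (hG : FiniteDimensional k (LFIN_L h G)) :
    FiniteDimensional k (LFIN_L h fun p => G p + if p = q then 1 else 0) := by
  by_cases hle : LFIN_L h (fun p => G p + if p = q then 1 else 0) ≤ LFIN_L h G
  · exact Submodule.finiteDimensional_of_le hle
  · obtain ⟨f1, hf1, hf1'⟩ := SetLike.not_le_iff_exists.1 hle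
    have key : LFIN_L h (fun p => G p + if p = q then 1 else 0) ≤
        LFIN_L h G ⊔ Submodule.span k {f1} := by
      intro f hf
      have hf10 : f1 ≠ 0 := by
        rintro rfl
        exact hf1' (Submodule.zero_mem _)
      have hord : (q.ord f1 : ℤ) = -(G q + 1) := by
        have h1 := hf1 q
        simp only [if_true] at h1
        rw [(h q).ge_iff _ _ hf10] at h1
        by_contra hne
        apply hf1'
        intro p
        by_cases hp : p = q
        · subst hp
          exact Or.inr (by omega)
        · have h2 := hf1 p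
          simp only [if_neg hp, add_zero] at h2
          exact h2
      obtain ⟨c, hc⟩ := (h q).res_ge (f / f1) (by
        rw [div_eq_mul_inv, show (0 : ℤ) = -(G q + 1) + (G q + 1) by ring]
        have h1 := hf q
        simp only [if_true] at h1
        refine (h q).ge_mul h1 (Or.inr ?_)
        rw [(h q).ord_inv, hord]; simp)
      have h3 : f - c • f1 ∈ LFIN_L h G := by
        intro p
        by_cases hp : p = q
        · subst hp
          have h4 : f - c • f1 = (f / f1 - algebraMap k K c) * f1 := by
            rw [sub_mul, div_mul_cancel₀ _ hf10, Algebra.smul_def]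
          rw [h4, show -G p = 1 + -(G p + 1) by ring]
          exact (h p).ge_mul hc (Or.inr hord.ge)
        · have h1 := hf p
          have h2 := hf1 p
          simp only [if_neg hp, add_zero] at h1 h2
          exact (h p).ge_sub h1 ((h p).ge_smul c h2)
      have h5 : f = (f - c • f1) + c • f1 := by ring
      rw [h5]
      exact Submodule.add_mem_sup h3 (Submodule.smul_mem _ _ (Submodule.mem_span_singleton_self f1))
    have : FiniteDimensional k (LFIN_L h G ⊔ Submodule.span k {f1} : Submodule k K) :=
      Submodule.finiteDimensional_sup _ _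
    exact Submodule.finiteDimensional_of_le key

open Classical in
theorem LFIN_multiset (h : ∀ p : Pl k K, p.Laws)
    (h0 : FiniteDimensional k (LFIN_L h fun _ => 0)) (m : Multiset (Pl k K)) :
    FiniteDimensional k (LFIN_L h fun p => (m.count p : ℤ)) := by
  induction m using Multiset.induction_on with
  | empty =>
    have e : (fun p : Pl k K => ((0 : Multiset (Pl k K)).count p : ℤ)) = fun _ => 0 := by
      funext p; simp
    rw [e]
    exact h0
  | cons q m ih =>
    have e : (fun p : Pl k K => ((q ::ₘ m).count p : ℤ)) =
        fun p => (m.count p : ℤ) + if p = q then 1 else 0 := by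
      funext p
      rw [Multiset.count_cons]
      push_cast
      rfl
    rw [e]
    exact LFIN_step h _ q ih

end

theorem st_LFIN (h1 : ST_PL1) (h5 : ST_PL5) : ST_LFIN := by
  classical
  intro k K _ _ _ _ _ hFF G hG
  have h : ∀ p : Pl k K, p.Laws := fun p => h1 k K hFF p
  have h0 : FiniteDimensional k (LFIN_L h fun _ => 0) := by
    have hle : LFIN_L h (fun _ => 0) ≤ Submodule.span k {(1 : K)} := by
      intro f hf
      obtain ⟨c, rfl⟩ := h5 k K hFF f fun p => by
        have := hf p
        rw [neg_zero] at this
        exact ((h p).mem_iff_ge f).2 this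
      rw [Algebra.algebraMap_eq_smul_one]
      exact Submodule.smul_mem _ _ (Submodule.mem_span_singleton_self _)
    exact Submodule.finiteDimensional_of_le hle
  refine ⟨LFIN_L h G, ?_, fun f => Iff.rfl⟩
  have h6 := LFIN_multiset h h0 (∑ p ∈ hG.toFinset, Multiset.replicate (G p).toNat p)
  have h8 : LFIN_L h G ≤ LFIN_L h fun p => ((∑ p ∈ hG.toFinset,
      Multiset.replicate (G p).toNat p).count p : ℤ) := ?_
  · exact Submodule.finiteDimensional_of_le h8
  intro f hf p
  refine (h p).ge_mono (hf p) ?_
  have h7 : (Multiset.count p (∑ q ∈ hG.toFinset, Multiset.replicate (G q).toNat q)) =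
      ∑ q ∈ hG.toFinset, if q = p then (G q).toNat else 0 := by
    rw [Multiset.count_sum']
    refine Finset.sum_congr rfl fun q _ => ?_
    rw [Multiset.count_replicate]
  show -((Multiset.count p (∑ q ∈ hG.toFinset, Multiset.replicate (G q).toNat q) : ℕ) : ℤ) ≤ _
  rw [h7, Finset.sum_ite_eq' hG.toFinset p]
  by_cases hp : G p = 0
  · simp [hp]
  · rw [if_pos (by simpa using hp)]
    omega

end Pool.Agent.Helper8.SPV
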